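import Mathlib

set_option autoImplicit false
set_option linter.unusedSectionVars false
open scoped ENNReal Classical

namespace Pool.Agent.N239.Conv

variable {G : Type} [Group G]

/-- sum of the `p`-th powers -/
noncomputable def NN (p : ℝ) (ξ : G → ℝ≥0∞) : ℝ≥0∞ := ∑' g, ξ g ^ p

/-- sum of `n` translates -/
noncomputable def Av (n : ℕ) (x : ℕ → G) (ξ : G → ℝ≥0∞) (g : G) : ℝ≥0∞ :=
  ∑ i ∈ Finset.range n, ξ (x i * g)

theorem tsum_shift (x : G) (h : G → ℝ≥0∞) : ∑' g, h (x * g) = ∑' g, h g :=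
  Equiv.tsum_eq (Equiv.mulLeft x) h

theorem tsum_fin (n : ℕ) (h : ℕ → G → ℝ≥0∞) :
    ∑' g, ∑ i ∈ Finset.range n, h i g = ∑ i ∈ Finset.range n, ∑' g, h i g :=
  Summable.tsum_finsetSum (fun _ _ => ENNReal.summable)

theorem NN_mono {p : ℝ} (hp : 0 ≤ p) {u v : G → ℝ≥0∞} (h : ∀ g, u g ≤ v g) :
    NN p u ≤ NN p v :=
  ENNReal.tsum_le_tsum (fun g => ENNReal.rpow_le_rpow (h g) hp)

theorem NN_add_le {p : ℝ} (hp : 1 ≤ p) (u v : G → ℝ≥0∞) :
    NN p (fun g => u g + v g) ≤ 2 ^ (p - 1) * (NN p u + NN p v) := by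
  unfold NN
  rw [← ENNReal.tsum_add, ← ENNReal.tsum_mul_left]
  exact ENNReal.tsum_le_tsum (fun g => ENNReal.rpow_add_le_mul_rpow_add_rpow _ _ hp)

theorem NN_Av_le {p : ℝ} (hp : 1 ≤ p) (n : ℕ) (x : ℕ → G) (ξ : G → ℝ≥0∞) :
    NN p (Av n x ξ) ≤ (n : ℝ≥0∞) ^ (p - 1) * n * NN p ξ := by
  calc NN p (Av n x ξ) ≤ ∑' g, (n : ℝ≥0∞) ^ (p - 1) * ∑ i ∈ Finset.range n, ξ (x i * g) ^ p := by
        refine ENNReal.tsum_le_tsum (fun g => ?_)
        have := ENNReal.rpow_sum_le_const_mul_sum_rpow (Finset.range n)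
          (fun i => ξ (x i * g)) hp
        simpa [Av] using this
    _ = (n : ℝ≥0∞) ^ (p - 1) * ∑ i ∈ Finset.range n, ∑' g, ξ (x i * g) ^ p := by
        rw [ENNReal.tsum_mul_left, tsum_fin]
    _ = (n : ℝ≥0∞) ^ (p - 1) * ∑ i ∈ Finset.range n, NN p ξ := by
        congr 1
        refine Finset.sum_congr rfl (fun i _ => ?_)
        exact tsum_shift (x i) (fun g => ξ g ^ p)
    _ = (n : ℝ≥0∞) ^ (p - 1) * n * NN p ξ := by
        rw [Finset.sum_const, Finset.card_range, nsmul_eq_mul, mul_assoc]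

theorem indicator_rpow {p : ℝ} (hp : 0 < p) (D : Set G) (u : G → ℝ≥0∞) (g : G) :
    (D.indicator u g) ^ p = D.indicator (fun g => u g ^ p) g := by
  by_cases h : g ∈ D
  · simp [h]
  · simp [h, hp]

/-- restriction to a set `D` such that the translates of `D` are disjoint -/
theorem NN_ind_Av_le {p : ℝ} (hp : 1 ≤ p) (n : ℕ) (x : ℕ → G) (D : Set G)
    (hD : ∀ g i j, (x i)⁻¹ * g ∈ D → (x j)⁻¹ * g ∈ D → i = j) (ξ : G → ℝ≥0∞) :
    NN p (D.indicator (Av n x ξ)) ≤ (n : ℝ≥0∞) ^ (p - 1) * NN p ξ := by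
  have hp0 : 0 < p := by linarith
  calc NN p (D.indicator (Av n x ξ))
      ≤ ∑' g, (n : ℝ≥0∞) ^ (p - 1) * ∑ i ∈ Finset.range n,
          D.indicator (fun g => ξ (x i * g) ^ p) g := by
        refine ENNReal.tsum_le_tsum (fun g => ?_)
        rw [indicator_rpow hp0]
        by_cases h : g ∈ D
        · simp only [Set.indicator_of_mem h]
          have := ENNReal.rpow_sum_le_const_mul_sum_rpow (Finset.range n)
            (fun i => ξ (x i * g)) hp
          simpa [Av] using this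
        · simp [h]
    _ = (n : ℝ≥0∞) ^ (p - 1) * ∑ i ∈ Finset.range n, ∑' g,
          D.indicator (fun g => ξ (x i * g) ^ p) g := by
        rw [ENNReal.tsum_mul_left, tsum_fin]
    _ = (n : ℝ≥0∞) ^ (p - 1) * ∑ i ∈ Finset.range n, ∑' g,
          (if (x i)⁻¹ * g ∈ D then 1 else 0) * ξ g ^ p := by
        congr 1
        refine Finset.sum_congr rfl (fun i _ => ?_)
        rw [← tsum_shift (x i) (fun g => (if (x i)⁻¹ * g ∈ D then 1 else 0) * ξ g ^ p)]
        refine tsum_congr (fun g => ?_)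
        rw [inv_mul_cancel_left]
        by_cases h : g ∈ D
        · simp [h]
        · simp [h]
    _ = (n : ℝ≥0∞) ^ (p - 1) * ∑' g, (∑ i ∈ Finset.range n,
          (if (x i)⁻¹ * g ∈ D then 1 else 0)) * ξ g ^ p := by
        rw [← tsum_fin]
        congr 1
        refine tsum_congr (fun g => ?_)
        rw [Finset.sum_mul]
    _ ≤ (n : ℝ≥0∞) ^ (p - 1) * NN p ξ := by
        gcongr
        refine ENNReal.tsum_le_tsum (fun g => ?_)
        refine (mul_le_mul_left ?_ _).trans_eq (one_mul _)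
        rw [Finset.sum_ite, Finset.sum_const_zero, add_zero, Finset.sum_const, nsmul_eq_mul,
          mul_one]
        have : (Finset.filter (fun i => (x i)⁻¹ * g ∈ D) (Finset.range n)).card ≤ 1 := by
          rw [Finset.card_le_one]
          intro i hi j hj
          exact hD g i j (Finset.mem_filter.1 hi).2 (Finset.mem_filter.1 hj).2
        exact_mod_cast this

/-- functions living on a set `D` such that the inverse translates of `D` are disjoint -/
theorem NN_Av_ind_le {p : ℝ} (hp : 1 ≤ p) (n : ℕ) (x : ℕ → G) (D : Set G)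
    (hD : ∀ g i j, x i * g ∈ D → x j * g ∈ D → i = j) (η : G → ℝ≥0∞) :
    NN p (Av n x (D.indicator η)) ≤ n * NN p η := by
  have hp0 : 0 < p := by linarith
  calc NN p (Av n x (D.indicator η))
      ≤ ∑' g, ∑ i ∈ Finset.range n, (D.indicator η (x i * g)) ^ p := by
        refine ENNReal.tsum_le_tsum (fun g => ?_)
        unfold Av
        by_cases h : ∃ i ∈ Finset.range n, x i * g ∈ D
        · obtain ⟨i, hi, hiD⟩ := h
          rw [Finset.sum_eq_single_of_mem i hi]
          · exact Finset.single_le_sum (f := fun i => (D.indicator η (x i * g)) ^ p)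
              (fun _ _ => zero_le) hi
          · intro j _ hji
            apply Set.indicator_of_notMem
            intro hj
            exact hji (hD g j i hj hiD)
        · push Not at h
          rw [Finset.sum_eq_zero]
          · simp [hp0]
          · intro i hi
            exact Set.indicator_of_notMem (h i hi) _
    _ = ∑ i ∈ Finset.range n, NN p (D.indicator η) := by
        rw [tsum_fin]
        refine Finset.sum_congr rfl (fun i _ => ?_)
        exact tsum_shift (x i) (fun g => (D.indicator η g) ^ p)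
    _ ≤ n * NN p η := by
        rw [Finset.sum_const, Finset.card_range, nsmul_eq_mul]
        gcongr
        exact NN_mono hp0.le (fun g => Set.indicator_le_self _ _ _)

theorem Av_add (n : ℕ) (x : ℕ → G) (u v : G → ℝ≥0∞) (g : G) :
    Av n x (fun g => u g + v g) g = Av n x u g + Av n x v g := by
  simp [Av, Finset.sum_add_distrib]

/-- the main upper bound -/
theorem upper {p : ℝ} (hp : 1 ≤ p) (n m : ℕ) (x y : ℕ → G) (D : Set G)
    (h1 : ∀ g i j, x i * g ∉ D → x j * g ∉ D → i = j)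
    (h2 : ∀ g i j, (y i)⁻¹ * g ∈ D → (y j)⁻¹ * g ∈ D → i = j) (ξ : G → ℝ≥0∞) :
    NN p (Av n x (Av m y ξ)) ≤
      2 ^ (p - 1) * ((n : ℝ≥0∞) ^ (p - 1) * n * (m : ℝ≥0∞) ^ (p - 1)
        + n * ((m : ℝ≥0∞) ^ (p - 1) * m)) * NN p ξ := by
  have e : Av n x (Av m y ξ) = fun g => Av n x (D.indicator (Av m y ξ)) g +
      Av n x (Dᶜ.indicator (Av m y ξ)) g := by
    funext g
    rw [← Av_add]
    congr 1
    funext g
    exact (Set.indicator_self_add_compl_apply D (Av m y ξ) g).symm
  rw [e]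
  refine (NN_add_le hp _ _).trans ?_
  rw [mul_assoc]
  gcongr
  rw [add_mul]
  refine add_le_add ?_ ?_
  · refine (NN_Av_le hp n x _).trans ?_
    rw [mul_assoc ((n : ℝ≥0∞) ^ (p - 1) * n)]
    gcongr
    exact NN_ind_Av_le hp m y D h2 ξ
  · refine (NN_Av_ind_le hp n x Dᶜ h1 _).trans ?_
    rw [mul_assoc (n : ℝ≥0∞)]
    gcongr
    exact NN_Av_le hp m y ξ

end Pool.Agent.N239.Conv
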