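import Mathlib

set_option autoImplicit false
open FreeGroup

namespace Pool.Agent.N239.Conv

/-- the reduced word of `w` starts with the letter `l` or its inverse -/
def Starts (l : Fin 2) (w : FreeGroup (Fin 2)) : Prop :=
  ∃ (s : Bool) (tl : List (Fin 2 × Bool)), w.toWord = (l, s) :: tl

theorem starts_unique {l l' : Fin 2} {w : FreeGroup (Fin 2)} (h : Starts l w) (h' : Starts l' w) :
    l = l' := by
  obtain ⟨s, tl, h⟩ := h
  obtain ⟨s', tl', h'⟩ := h'
  rw [h] at h'
  simp at h'
  exact h'.1.1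

theorem word_of_mul_of_not {l : Fin 2} {w : FreeGroup (Fin 2)} (h : ¬ Starts l w) :
    ∃ tl, (of l * w).toWord = (l, true) :: tl := by
  rw [toWord_mul, toWord_of, List.singleton_append, reduce.cons, reduce_toWord]
  rcases hw : w.toWord with _ | ⟨hd, tl⟩
  · exact ⟨[], rfl⟩
  · refine ⟨hd :: tl, ?_⟩
    change (if l = hd.1 ∧ true = not hd.2 then tl else (l, true) :: hd :: tl) = _
    rw [if_neg]
    rintro ⟨h1, _⟩
    apply h
    refine ⟨hd.2, tl, ?_⟩
    rw [hw, h1]

theorem word_of_mul_of_true {l : Fin 2} {w : FreeGroup (Fin 2)}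
    (h : ∃ tl, w.toWord = (l, true) :: tl) :
    ∃ tl, (of l * w).toWord = (l, true) :: tl := by
  obtain ⟨tl, h⟩ := h
  rw [toWord_mul, toWord_of, List.singleton_append, reduce.cons, reduce_toWord, h]
  refine ⟨(l, true) :: tl, ?_⟩
  simp

theorem starts_pow {l : Fin 2} {w : FreeGroup (Fin 2)} (h : ¬ Starts l w) (k : ℕ) :
    Starts l ((of l) ^ (k + 1) * w) := by
  have key : ∃ tl, ((of l) ^ (k + 1) * w).toWord = (l, true) :: tl := by
    induction k with
    | zero => simpa using word_of_mul_of_not h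
    | succ k ih =>
      rw [pow_succ', mul_assoc]
      exact word_of_mul_of_true ih
  obtain ⟨tl, h'⟩ := key
  exact ⟨true, tl, h'⟩

variable {G : Type} [Group G] (φ : FreeGroup (Fin 2) →* G)

/-- the chosen representative of the right coset of the image -/
noncomputable def rep (g : G) : G :=
  Quotient.out (Quotient.mk (QuotientGroup.rightRel φ.range) g)

theorem rep_mem (g : G) : g * (rep φ g)⁻¹ ∈ φ.range := by
  have h := Quotient.mk_out (s := QuotientGroup.rightRel φ.range) g
  change (QuotientGroup.rightRel φ.range) (rep φ g) g at h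
  rwa [QuotientGroup.rightRel_apply] at h

theorem rep_mul (u : FreeGroup (Fin 2)) (g : G) : rep φ (φ u * g) = rep φ g := by
  unfold rep
  congr 1
  apply Quotient.sound
  change (QuotientGroup.rightRel φ.range) _ _
  rw [QuotientGroup.rightRel_apply]
  refine ⟨u⁻¹, ?_⟩
  simp

/-- the coordinate in the free group -/
noncomputable def coord (g : G) : FreeGroup (Fin 2) := (rep_mem φ g).choose

theorem coord_spec (g : G) : φ (coord φ g) = g * (rep φ g)⁻¹ := (rep_mem φ g).choose_spec

theorem coord_mul (hφ : Function.Injective φ) (u : FreeGroup (Fin 2)) (g : G) :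
    coord φ (φ u * g) = u * coord φ g := by
  apply hφ
  rw [_root_.map_mul, coord_spec, coord_spec, rep_mul, mul_assoc]

/-- the set of all elements whose coordinate starts with the letter 0 -/
def PP : Set G := {g | Starts 0 (coord φ g)}

theorem key0 (hφ : Function.Injective φ) (g : G) (k : ℕ) (hg : g ∉ PP φ) :
    φ (of 0) ^ (k + 1) * g ∈ PP φ := by
  change Starts 0 _
  rw [← map_pow, coord_mul φ hφ]
  exact starts_pow hg k

theorem key1 (hφ : Function.Injective φ) (g : G) (k : ℕ) (hg : g ∈ PP φ) :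
    φ (of 1) ^ (k + 1) * g ∉ PP φ := by
  intro h
  change Starts 0 _ at h
  rw [← map_pow, coord_mul φ hφ] at h
  have h1 : ¬ Starts 1 (coord φ g) := by
    intro h1
    exact absurd (starts_unique hg h1) (by decide)
  exact absurd (starts_unique h (starts_pow h1 k)) (by decide)

/-- for each `g`, at most one `i` has `a^{-i} g ∉ P` -/
theorem uniq0 (hφ : Function.Injective φ) (g : G) (i i' : ℕ)
    (h : (φ (of 0) ^ i)⁻¹ * g ∉ PP φ) (h' : (φ (of 0) ^ i')⁻¹ * g ∉ PP φ) : i = i' := by
  by_contra hne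
  rcases Nat.lt_or_gt_of_ne hne with hlt | hlt
  · obtain ⟨k, rfl⟩ := Nat.exists_eq_add_of_lt hlt
    have := key0 φ hφ _ k h'
    apply h
    convert this using 1
    rw [← mul_assoc]
    congr 1
    rw [show i + k + 1 = (k + 1) + i by ring, pow_add _ (k + 1) i, mul_inv_rev]
    have hc : Commute (φ (of 0) ^ (k + 1)) ((φ (of 0) ^ i)⁻¹) :=
      ((Commute.refl _).pow_pow _ _).inv_right
    rw [← mul_assoc, hc.eq, mul_assoc, mul_inv_cancel, mul_one]
  · obtain ⟨k, rfl⟩ := Nat.exists_eq_add_of_lt hlt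
    have := key0 φ hφ _ k h
    apply h'
    convert this using 1
    rw [← mul_assoc]
    congr 1
    rw [show i' + k + 1 = (k + 1) + i' by ring, pow_add _ (k + 1) i', mul_inv_rev]
    have hc : Commute (φ (of 0) ^ (k + 1)) ((φ (of 0) ^ i')⁻¹) :=
      ((Commute.refl _).pow_pow _ _).inv_right
    rw [← mul_assoc, hc.eq, mul_assoc, mul_inv_cancel, mul_one]

/-- for each `g`, at most one `j` has `b^j g ∈ P` -/
theorem uniq1 (hφ : Function.Injective φ) (g : G) (j j' : ℕ)
    (h : φ (of 1) ^ j * g ∈ PP φ) (h' : φ (of 1) ^ j' * g ∈ PP φ) : j = j' := by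
  by_contra hne
  rcases Nat.lt_or_gt_of_ne hne with hlt | hlt
  · obtain ⟨k, rfl⟩ := Nat.exists_eq_add_of_lt hlt
    refine key1 φ hφ _ k h ?_
    convert h' using 1
    rw [← mul_assoc, ← pow_add]
    congr 2
    ring
  · obtain ⟨k, rfl⟩ := Nat.exists_eq_add_of_lt hlt
    refine key1 φ hφ _ k h' ?_
    convert h using 1
    rw [← mul_assoc, ← pow_add]
    congr 2
    ring

/-- exponent sum of a letter -/
noncomputable def ex (l : Fin 2) : FreeGroup (Fin 2) →* Multiplicative ℤ :=
  FreeGroup.lift (fun i => if i = l then Multiplicative.ofAdd 1 else 1)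

theorem pow_inj (hφ : Function.Injective φ) {j j' r r' : ℕ}
    (h : (φ (of 1) ^ j)⁻¹ * φ (of 0) ^ r = (φ (of 1) ^ j')⁻¹ * φ (of 0) ^ r') :
    j = j' ∧ r = r' := by
  rw [← map_pow, ← map_pow, ← map_pow, ← map_pow, ← _root_.map_inv, ← _root_.map_inv, ← _root_.map_mul,
    ← _root_.map_mul] at h
  have h0 := hφ h
  have e0 := congrArg (ex 0) h0
  have e1 := congrArg (ex 1) h0
  simp [ex] at e0 e1
  exact ⟨e1, e0⟩

end Pool.Agent.N239.Conv
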