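import Pool.Agent.N239.Conv.Bound

set_option autoImplicit false
set_option linter.unusedSectionVars false
open scoped ENNReal Classical

namespace Pool.Agent.N239.Conv

variable {G : Type} [Group G]

/-- convolution -/
noncomputable def cv (F : G → ℝ≥0∞) (η : G → ℝ≥0∞) (g : G) : ℝ≥0∞ := ∑' z, F (g * z⁻¹) * η z

/-- kernel of one block -/
noncomputable def blk (n m : ℕ) (x y : ℕ → G) (w : G) : ℝ≥0∞ :=
  ∑ i ∈ Finset.range n, ∑ j ∈ Finset.range m, if w = (y j * x i)⁻¹ then 1 else 0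

theorem cv_blk (n m : ℕ) (x y : ℕ → G) (η : G → ℝ≥0∞) (g : G) :
    cv (blk n m x y) η g = Av n x (Av m y η) g := by
  unfold cv blk Av
  simp_rw [Finset.sum_mul]
  rw [tsum_fin]
  refine Finset.sum_congr rfl (fun i _ => ?_)
  rw [tsum_fin]
  refine Finset.sum_congr rfl (fun j _ => ?_)
  rw [tsum_eq_single (y j * (x i * g))]
  · rw [if_pos, one_mul]
    group
  · intro z hz
    rw [if_neg, zero_mul]
    intro h
    apply hz
    have : z = (g * z⁻¹)⁻¹ * g := by group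
    rw [this, h]
    group

/-- the sum of blocks -/
noncomputable def ker (c : ℕ → ℝ≥0∞) (n m : ℕ → ℕ) (x y : ℕ → G) (w : G) : ℝ≥0∞ :=
  ∑' k, c k * blk (n k) (m k) x y w

theorem cv_ker (c : ℕ → ℝ≥0∞) (n m : ℕ → ℕ) (x y : ℕ → G) (η : G → ℝ≥0∞) (g : G) :
    cv (ker c n m x y) η g = ∑' k, c k * Av (n k) x (Av (m k) y η) g := by
  simp_rw [← cv_blk]
  unfold cv ker
  simp_rw [← ENNReal.tsum_mul_right, ← ENNReal.tsum_mul_left]
  rw [ENNReal.tsum_comm]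
  simp_rw [mul_assoc]

theorem pow_tsum_le {p : ℝ} (hp : 0 < p) (z : ℕ → ℝ≥0∞) :
    (∑' k, z k) ^ p ≤ 2 ^ p * ∑' k, ((2 : ℝ≥0∞) ^ k * z k) ^ p := by
  set S := ∑' k, ((2 : ℝ≥0∞) ^ k * z k) ^ p with hS
  have h1 : ∀ k, z k ≤ (2⁻¹ : ℝ≥0∞) ^ k * S ^ (p⁻¹) := by
    intro k
    have h2 : (2 : ℝ≥0∞) ^ k * z k ≤ S ^ p⁻¹ := by
      rw [ENNReal.le_rpow_inv_iff hp]
      exact ENNReal.le_tsum k
    calc z k = (2⁻¹ : ℝ≥0∞) ^ k * ((2 : ℝ≥0∞) ^ k * z k) := by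
          rw [← mul_assoc, ← mul_pow, ENNReal.inv_mul_cancel (by norm_num) (by norm_num), one_pow,
            one_mul]
      _ ≤ _ := by gcongr
  calc (∑' k, z k) ^ p ≤ (∑' k, (2⁻¹ : ℝ≥0∞) ^ k * S ^ (p⁻¹)) ^ p :=
        ENNReal.rpow_le_rpow (ENNReal.tsum_le_tsum h1) hp.le
    _ = (2 * S ^ (p⁻¹)) ^ p := by
        rw [ENNReal.tsum_mul_right, ENNReal.tsum_geometric, ENNReal.one_sub_inv_two, inv_inv]
    _ = 2 ^ p * S := by
        rw [ENNReal.mul_rpow_of_nonneg _ _ hp.le, ← ENNReal.rpow_mul, inv_mul_cancel₀ hp.ne',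
          ENNReal.rpow_one]

theorem NN_cv_ker_le {p : ℝ} (hp : 0 < p) (c : ℕ → ℝ≥0∞) (n m : ℕ → ℕ) (x y : ℕ → G)
    (M : ℕ → ℝ≥0∞) (η : G → ℝ≥0∞)
    (hM : ∀ k, NN p (Av (n k) x (Av (m k) y η)) ≤ M k * NN p η) :
    NN p (cv (ker c n m x y) η) ≤ 2 ^ p * (∑' k, (2 ^ k * c k) ^ p * M k) * NN p η := by
  calc NN p (cv (ker c n m x y) η)
      = ∑' g, (∑' k, c k * Av (n k) x (Av (m k) y η) g) ^ p := by
        unfold NN
        simp_rw [cv_ker]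
    _ ≤ ∑' g, 2 ^ p * ∑' k, ((2 : ℝ≥0∞) ^ k * (c k * Av (n k) x (Av (m k) y η) g)) ^ p :=
        ENNReal.tsum_le_tsum (fun g => pow_tsum_le hp _)
    _ = 2 ^ p * ∑' k, ∑' g, (2 ^ k * c k) ^ p * (Av (n k) x (Av (m k) y η) g) ^ p := by
        rw [ENNReal.tsum_mul_left, ENNReal.tsum_comm]
        simp_rw [← mul_assoc, ENNReal.mul_rpow_of_nonneg _ _ hp.le]
    _ = 2 ^ p * ∑' k, (2 ^ k * c k) ^ p * NN p (Av (n k) x (Av (m k) y η)) := by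
        simp_rw [ENNReal.tsum_mul_left]
        rfl
    _ ≤ 2 ^ p * ∑' k, (2 ^ k * c k) ^ p * (M k * NN p η) := by
        gcongr with k
        exact hM k
    _ = 2 ^ p * (∑' k, (2 ^ k * c k) ^ p * M k) * NN p η := by
        rw [mul_assoc, ← ENNReal.tsum_mul_right]
        simp_rw [mul_assoc]

theorem NN_ge {p : ℝ} (hp : 0 ≤ p) (u : G → ℝ≥0∞) (t : Finset G) (v : ℝ≥0∞)
    (h : ∀ g ∈ t, v ≤ u g) : t.card * v ^ p ≤ NN p u := by
  calc (t.card : ℝ≥0∞) * v ^ p = ∑ g ∈ t, v ^ p := by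
        rw [Finset.sum_const, nsmul_eq_mul]
    _ ≤ ∑ g ∈ t, u g ^ p := Finset.sum_le_sum (fun g hg => ENNReal.rpow_le_rpow (h g hg) hp)
    _ ≤ NN p u := ENNReal.sum_le_tsum t

end Pool.Agent.N239.Conv
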