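import Mathlib

set_option autoImplicit false
open scoped ENNReal

namespace Pool.Agent.N239.Conv

/-- `2 ^ t` -/
noncomputable def E (t : ℝ) : ℝ≥0∞ := (2 : ℝ≥0∞) ^ t

theorem E_mul (s t : ℝ) : E s * E t = E (s + t) :=
  (ENNReal.rpow_add s t (by norm_num) (by norm_num)).symm

theorem E_rpow (s p : ℝ) : E s ^ p = E (s * p) := (ENNReal.rpow_mul _ _ _).symm

theorem E_zero : E 0 = 1 := ENNReal.rpow_zero

theorem E_one : E 1 = 2 := ENNReal.rpow_one _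

theorem E_pow (k : ℕ) : (2 : ℝ≥0∞) ^ k = E k := (ENNReal.rpow_natCast _ _).symm

theorem E_nat (a : ℕ) : ((2 ^ a : ℕ) : ℝ≥0∞) = E a := by
  rw [Nat.cast_pow, Nat.cast_ofNat, E_pow]

theorem E_le {s t : ℝ} (h : s ≤ t) : E s ≤ E t :=
  ENNReal.rpow_le_rpow_of_exponent_le (by norm_num) h

theorem E_ne_top (s : ℝ) : E s ≠ ∞ := by
  intro h
  have h1 : E s * E (-s) = 1 := by rw [E_mul, add_neg_cancel, E_zero]
  rcases ENNReal.rpow_eq_top_iff.1 h with h2 | h2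
  · exact absurd h2.1 (by norm_num)
  · exact absurd h2.1 (by norm_num)

theorem E_div {a b : ℝ} {K : ℝ≥0∞} (h : E a ≤ K * E b) : E (a - b) ≤ K := by
  calc E (a - b) = E a * E (-b) := by rw [E_mul, sub_eq_add_neg]
    _ ≤ K * E b * E (-b) := by gcongr
    _ = K := by rw [mul_assoc, E_mul, add_neg_cancel, E_zero, mul_one]

theorem E_sum (C : ℝ) (u : ℕ → ℝ≥0∞) (h : ∀ k : ℕ, u k ≤ E (C - k)) : ∑' k, u k ≠ ∞ := by
  have h1 : ∑' k, u k ≤ E C * 2 := by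
    calc ∑' k, u k ≤ ∑' k : ℕ, E C * (2⁻¹ : ℝ≥0∞) ^ k := by
          refine ENNReal.tsum_le_tsum (fun k => (h k).trans_eq ?_)
          rw [sub_eq_add_neg, ← E_mul]
          congr 1
          unfold E
          rw [ENNReal.rpow_neg, ENNReal.rpow_natCast, ENNReal.inv_pow]
      _ = E C * 2 := by
          rw [ENNReal.tsum_mul_left, ENNReal.tsum_geometric, ENNReal.one_sub_inv_two, inv_inv]
  exact ne_top_of_le_ne_top (ENNReal.mul_ne_top (E_ne_top C) (by norm_num)) h1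

/-- the parameters -/
def nn (k : ℕ) : ℕ := 2 ^ (2 * k ^ 3)
def mm (k : ℕ) : ℕ := 2 ^ (2 * k ^ 2)
noncomputable def cc (k : ℕ) : ℝ≥0∞ := E (-(2 * k + k ^ 2 + 2 * k ^ 3))

theorem nn_eq (k : ℕ) : (nn k : ℝ≥0∞) = E (2 * k ^ 3) := by
  unfold nn
  rw [E_nat]
  push_cast
  rfl

theorem mm_eq (k : ℕ) : (mm k : ℝ≥0∞) = E (2 * k ^ 2) := by
  unfold mm
  rw [E_nat]
  push_cast
  rfl

theorem cub {P q k : ℝ} (hP : 0 ≤ P) (hq : 0 < q) (hk : 0 ≤ k) :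
    P * k ^ 2 - q * k ^ 3 ≤ P * (P / q) ^ 2 := by
  by_cases h : k ≤ P / q
  · have h1 : k ^ 2 ≤ (P / q) ^ 2 := by gcongr
    have h2 : P * k ^ 2 ≤ P * (P / q) ^ 2 := by gcongr
    have h3 : 0 ≤ q * k ^ 3 := by positivity
    linarith
  · push Not at h
    rw [div_lt_iff₀ hq] at h
    have h3 : 0 ≤ P * (P / q) ^ 2 := by positivity
    have h4 : 0 ≤ k ^ 2 * (k * q - P) := mul_nonneg (sq_nonneg _) (by linarith)
    nlinarith

theorem term_le {p C X A B : ℝ} {k : ℕ} (hA : X * p + (p - 1) + A ≤ C - k)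
    (hB : X * p + (p - 1) + B ≤ C - k) :
    E X ^ p * (2 ^ (p - 1) * (E A + E B)) ≤ E (C + 1 - k) := by
  have h1 : (2 : ℝ≥0∞) ^ (p - 1) = E (p - 1) := rfl
  rw [h1, E_rpow, mul_add, mul_add, E_mul, E_mul, E_mul, E_mul]
  calc E (X * p + (p - 1 + A)) + E (X * p + (p - 1 + B)) ≤ E (C - k) + E (C - k) := by
        refine add_le_add (E_le ?_) (E_le ?_) <;> linarith
    _ = E (C + 1 - k) := by
        rw [← two_mul, ← E_one, E_mul]
        congr 1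
        ring

theorem sum1 {p : ℝ} (h1 : 1 < p) (h2 : p ≤ 2) :
    ∑' k, (2 ^ k * cc k) ^ p * (2 ^ (p - 1) * ((nn k : ℝ≥0∞) ^ (p - 1) * nn k *
      (mm k : ℝ≥0∞) ^ (p - 1) + nn k * ((mm k : ℝ≥0∞) ^ (p - 1) * mm k))) ≠ ∞ := by
  set C : ℝ := (p - 1) + p * (p / (2 * (p - 1))) ^ 2 with hC
  refine E_sum (C + 1) _ (fun k => ?_)
  rw [nn_eq, mm_eq, E_pow, cc, E_mul]
  simp only [E_rpow, E_mul]
  rw [← E_rpow]
  have hk : (0 : ℝ) ≤ k := Nat.cast_nonneg k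
  have hc := cub (P := p) (q := 2 * (p - 1)) (k := k) (by linarith) (by linarith) hk
  have hc0 : 0 ≤ p * (p / (2 * (p - 1))) ^ 2 := by positivity
  have hk2 : (0 : ℝ) ≤ (k : ℝ) ^ 2 := by positivity
  have h3 : (p - 2) * (k : ℝ) ^ 2 ≤ 0 := mul_nonpos_of_nonpos_of_nonneg (by linarith) hk2
  have h4 : (k : ℝ) ≤ p * k := by nlinarith
  apply term_le
  · nlinarith
  · nlinarith

theorem sum2 {p : ℝ} (h2 : 2 ≤ p) :
    ∑' k, (2 ^ k * cc k) ^ p * (2 ^ (p - 1) * ((mm k : ℝ≥0∞) ^ (p - 1) * mm k *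
      (nn k : ℝ≥0∞) ^ (p - 1) + mm k * ((nn k : ℝ≥0∞) ^ (p - 1) * nn k))) ≠ ∞ := by
  set C : ℝ := (p - 1) + p * (p / 2) ^ 2 with hC
  refine E_sum (C + 1) _ (fun k => ?_)
  rw [nn_eq, mm_eq, E_pow, cc, E_mul]
  simp only [E_rpow, E_mul]
  rw [← E_rpow]
  have hk : (0 : ℝ) ≤ k := Nat.cast_nonneg k
  have hc := cub (P := p) (q := 2) (k := k) (by linarith) (by linarith) hk
  have hc0 : 0 ≤ p * (p / 2) ^ 2 := by positivity
  have hk2 : (0 : ℝ) ≤ (k : ℝ) ^ 2 := by positivity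
  have h3 : (2 - p) * (k : ℝ) ^ 2 ≤ 0 := mul_nonpos_of_nonpos_of_nonneg (by linarith) hk2
  have h4 : (k : ℝ) ≤ p * k := by nlinarith
  apply term_le
  · nlinarith
  · nlinarith

theorem grow {δ A : ℝ} (hδ : 0 < δ) {K : ℝ≥0∞} (hK : K ≠ ∞)
    (h : ∀ k : ℕ, E (δ * k ^ 2 - A * k) ≤ K) : False := by
  obtain ⟨N, hN⟩ := ENNReal.exists_nat_gt hK
  obtain ⟨k0, hk0⟩ := exists_nat_ge ((A + 1) / δ)
  set k := max N k0 with hk
  have h1 : (A + 1) / δ ≤ k := hk0.trans (by exact_mod_cast le_max_right N k0)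
  rw [div_le_iff₀ hδ] at h1
  have h2 : (N : ℝ) ≤ k := by exact_mod_cast le_max_left N k0
  have h3 : (0 : ℝ) ≤ k := Nat.cast_nonneg k
  have h4 : (N : ℝ) ≤ δ * k ^ 2 - A * k := by nlinarith
  have h5 : (N : ℝ≥0∞) ≤ E N := by
    rw [← E_nat]
    exact_mod_cast (Nat.lt_two_pow_self).le
  exact absurd (hN.trans_le (h5.trans ((E_le h4).trans (h k)))) (lt_irrefl _)

end Pool.Agent.N239.Conv
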