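import Pool.Agent.N239.Conv.Kernel

set_option autoImplicit false
set_option linter.unusedSectionVars false
open scoped ENNReal Classical

namespace Pool.Agent.N239.Conv

variable {G : Type} [Group G]

/-- `f` is a `p`-convolver -/
def IsConvolver (p : ℝ) (f : G → ℂ) : Prop :=
  ∃ C : ℝ, ∀ ξ : G →₀ ℂ,
    Summable (fun g : G => ‖∑ k ∈ ξ.support, f (g * k⁻¹) * ξ k‖ ^ p) ∧
    ∑' g : G, ‖∑ k ∈ ξ.support, f (g * k⁻¹) * ξ k‖ ^ p ≤ C * ∑ k ∈ ξ.support, ‖ξ k‖ ^ p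

theorem isConvolver_of_bound {p : ℝ} (hp : 0 < p) (F : G → ℝ≥0∞) (K : ℝ≥0∞) (hK : K ≠ ∞)
    (hfin : ∀ x, F x ≠ ∞) (hb : ∀ η, NN p (cv F η) ≤ K * NN p η) :
    IsConvolver p (fun x => ((F x).toReal : ℂ)) := by
  refine ⟨K.toReal, fun ξ => ?_⟩
  set η : G → ℝ≥0∞ := fun x => ENNReal.ofReal ‖ξ x‖ with hη
  have hcv : ∀ g, cv F η g = ∑ k ∈ ξ.support, F (g * k⁻¹) * η k := by
    intro g
    unfold cv
    rw [tsum_eq_sum]
    intro x hx
    have : ξ x = 0 := by simpa using hx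
    simp [hη, this]
  have hfin2 : ∀ g, cv F η g ≠ ∞ := by
    intro g
    rw [hcv]
    exact ENNReal.sum_ne_top.2 (fun k _ => ENNReal.mul_ne_top (hfin _) ENNReal.ofReal_ne_top)
  have hNη : NN p η = ENNReal.ofReal (∑ k ∈ ξ.support, ‖ξ k‖ ^ p) := by
    unfold NN
    rw [tsum_eq_sum (s := ξ.support), ENNReal.ofReal_sum_of_nonneg]
    · refine Finset.sum_congr rfl (fun k _ => ?_)
      rw [hη, ENNReal.ofReal_rpow_of_nonneg (norm_nonneg _) hp.le]
    · intro k _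
      positivity
    · intro x hx
      have : ξ x = 0 := by simpa using hx
      simp [hη, this, hp]
  have hN : ∑' g, (cv F η g) ^ p ≤ K * ENNReal.ofReal (∑ k ∈ ξ.support, ‖ξ k‖ ^ p) := by
    rw [← hNη]
    exact hb η
  have hNfin : ∑' g, (cv F η g) ^ p ≠ ∞ :=
    ne_top_of_le_ne_top (ENNReal.mul_ne_top hK ENNReal.ofReal_ne_top) hN
  have hpt : ∀ g, ‖∑ k ∈ ξ.support, ((F (g * k⁻¹)).toReal : ℂ) * ξ k‖ ^ p ≤
      ((cv F η g) ^ p).toReal := by
    intro g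
    rw [← ENNReal.toReal_rpow]
    refine Real.rpow_le_rpow (norm_nonneg _) ?_ hp.le
    rw [hcv, ENNReal.toReal_sum]
    · refine (norm_sum_le _ _).trans (Finset.sum_le_sum (fun k _ => ?_))
      rw [norm_mul, ENNReal.toReal_mul, hη, ENNReal.toReal_ofReal (norm_nonneg _)]
      rw [Complex.norm_real, Real.norm_of_nonneg ENNReal.toReal_nonneg]
    · intro k _
      exact ENNReal.mul_ne_top (hfin _) ENNReal.ofReal_ne_top
  have hsum : Summable (fun g => ((cv F η g) ^ p).toReal) := ENNReal.summable_toReal hNfin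
  have hs2 : Summable (fun g => ‖∑ k ∈ ξ.support, ((F (g * k⁻¹)).toReal : ℂ) * ξ k‖ ^ p) :=
    Summable.of_nonneg_of_le (fun g => by positivity) hpt hsum
  refine ⟨hs2, ?_⟩
  calc ∑' g, ‖∑ k ∈ ξ.support, ((F (g * k⁻¹)).toReal : ℂ) * ξ k‖ ^ p
      ≤ ∑' g, ((cv F η g) ^ p).toReal := hs2.tsum_le_tsum hpt hsum
    _ = (∑' g, (cv F η g) ^ p).toReal := by
        rw [ENNReal.tsum_toReal_eq]
        intro g
        exact ENNReal.rpow_ne_top_of_nonneg hp.le (hfin2 g)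
    _ ≤ (K * ENNReal.ofReal (∑ k ∈ ξ.support, ‖ξ k‖ ^ p)).toReal :=
        ENNReal.toReal_mono (ENNReal.mul_ne_top hK ENNReal.ofReal_ne_top) hN
    _ = K.toReal * ∑ k ∈ ξ.support, ‖ξ k‖ ^ p := by
        rw [ENNReal.toReal_mul, ENNReal.toReal_ofReal]
        exact Finset.sum_nonneg (fun k _ => by positivity)

theorem bound_of_isConvolver {p : ℝ} (hp : 0 < p) (F : G → ℝ≥0∞) (hfin : ∀ x, F x ≠ ∞)
    (h : IsConvolver p (fun x => ((F x).toReal : ℂ))) :
    ∃ K : ℝ≥0∞, K ≠ ∞ ∧ ∀ s : Finset G,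
      NN p (cv F (fun x => if x ∈ s then 1 else 0)) ≤ K * s.card := by
  obtain ⟨C, hC⟩ := h
  refine ⟨ENNReal.ofReal C, ENNReal.ofReal_ne_top, fun s => ?_⟩
  set ξ : G →₀ ℂ := ⟨s, fun x => if x ∈ s then 1 else 0, by intro x; simp⟩ with hξ
  have hsupp : ξ.support = s := rfl
  have hval : ∀ x ∈ s, ξ x = 1 := by
    intro x hx
    change (if x ∈ s then (1 : ℂ) else 0) = 1
    rw [if_pos hx]
  obtain ⟨h1, h2⟩ := hC ξ
  rw [hsupp] at h1 h2
  have hcv : ∀ g, cv F (fun x => if x ∈ s then 1 else 0) g = ∑ k ∈ s, F (g * k⁻¹) := by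
    intro g
    unfold cv
    rw [tsum_eq_sum (s := s)]
    · refine Finset.sum_congr rfl (fun k hk => ?_)
      simp only [if_pos hk, mul_one]
    · intro x hx
      simp only [if_neg hx, mul_zero]
  have hpt : ∀ g, (cv F (fun x => if x ∈ s then 1 else 0) g) ^ p =
      ENNReal.ofReal (‖∑ k ∈ s, ((F (g * k⁻¹)).toReal : ℂ) * ξ k‖ ^ p) := by
    intro g
    have e1 : ∑ k ∈ s, ((F (g * k⁻¹)).toReal : ℂ) * ξ k
        = (((∑ k ∈ s, F (g * k⁻¹)).toReal : ℝ) : ℂ) := by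
      rw [ENNReal.toReal_sum (fun k _ => hfin _), Complex.ofReal_sum]
      refine Finset.sum_congr rfl (fun k hk => ?_)
      rw [hval k hk, mul_one]
    rw [e1, Complex.norm_real, Real.norm_of_nonneg ENNReal.toReal_nonneg,
      ← ENNReal.ofReal_rpow_of_nonneg ENNReal.toReal_nonneg hp.le, ENNReal.ofReal_toReal, hcv]
    exact ENNReal.sum_ne_top.2 (fun k _ => hfin _)
  unfold NN
  simp_rw [hpt]
  rw [← ENNReal.ofReal_tsum_of_nonneg (fun g => by positivity) h1]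
  refine (ENNReal.ofReal_le_ofReal h2).trans ?_
  have e2 : ∑ k ∈ s, ‖ξ k‖ ^ p = s.card := by
    rw [Finset.sum_congr rfl (fun k hk => by rw [hval k hk, norm_one, Real.one_rpow])]
    simp
  rw [e2, ENNReal.ofReal_mul' (Nat.cast_nonneg _), ENNReal.ofReal_natCast]

/-- a bounded kernel is finite -/
theorem fin_of_bound {p : ℝ} (hp : 0 < p) (F : G → ℝ≥0∞) (K : ℝ≥0∞) (hK : K ≠ ∞)
    (hb : ∀ η, NN p (cv F η) ≤ K * NN p η) (x : G) : F x ≠ ∞ := by
  have h1 := hb (fun z => if z = 1 then 1 else 0)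
  have e1 : ∀ g, cv F (fun z => if z = 1 then 1 else 0) g = F g := by
    intro g
    unfold cv
    rw [tsum_eq_single 1]
    · simp
    · intro z hz
      simp [hz]
  have e2 : NN p (fun z : G => if z = 1 then (1 : ℝ≥0∞) else 0) = 1 := by
    unfold NN
    rw [tsum_eq_single 1]
    · simp
    · intro z hz
      simp [hz, hp]
  rw [e2, mul_one] at h1
  intro hx
  have h2 : (F x) ^ p ≤ NN p (cv F (fun z => if z = 1 then 1 else 0)) := by
    rw [← e1 x]
    exact ENNReal.le_tsum x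
  rw [hx, ENNReal.top_rpow_of_pos hp] at h2
  exact hK (top_le_iff.1 (h2.trans h1))

end Pool.Agent.N239.Conv
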